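import Mathlib

open Filter Topology Set Asymptotics

namespace Pool.Agent.Results.MP_97806e_pr.Rough

/-- The offspring generating function. -/
noncomputable def phi (q : ℕ → ℝ) (s : ℝ) : ℝ := ∑' n, q n * s ^ n

/-- Probability that the open cluster of the root reaches depth `n`. -/
noncomputable def reach (q : ℕ → ℝ) (p : ℝ) : ℕ → ℝ
  | 0 => 1
  | n + 1 => 1 - phi q (1 - p * reach q p n)

/-- The annealed survival function. -/
noncomputable def g (q : ℕ → ℝ) (p : ℝ) : ℝ := ⨅ n, reach q p n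

/-- Averaged geometric sums. -/
noncomputable def k (N : ℕ) (x : ℝ) : ℝ := (∑ j ∈ Finset.range N, (1 - x) ^ j) / N

theorem k_mul {N : ℕ} (h : 0 < N) (x : ℝ) : k N x * (N * x) = 1 - (1 - x) ^ N := by
  have : (N : ℝ) ≠ 0 := by positivity
  rw [← geom_sum_mul_neg, k]; field_simp; ring

theorem k_sub {N : ℕ} (h : 0 < N) {x y : ℝ} (h0 : 0 ≤ x) (h1 : x ≤ y) (h2 : y ≤ 1) :
    0 ≤ k N x - k N y ∧ k N x - k N y ≤ N * (y - x) := by
  have p : (0 : ℝ) < N := by positivity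
  rw [k, k, ← sub_div, ← Finset.sum_sub_distrib]
  refine ⟨div_nonneg (Finset.sum_nonneg fun j _ => sub_nonneg.2
    (pow_le_pow_left₀ (by linarith) (by linarith) j)) p.le, ?_⟩
  rw [div_le_iff₀ p]
  refine (Finset.sum_le_card_nsmul _ _ (N * (y - x)) fun j hj => ?_).trans (by simp [mul_comm])
  have a := abs_pow_sub_pow_le (1 - x) (1 - y) j
  have b : max |1 - x| |1 - y| ^ (j - 1) ≤ 1 := pow_le_one₀ (by positivity)
    (max_le (abs_le.2 ⟨by linarith, by linarith⟩) (abs_le.2 ⟨by linarith, by linarith⟩))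
  have c : (j : ℝ) ≤ N := by exact_mod_cast (Finset.mem_range.1 hj).le
  rw [show 1 - x - (1 - y) = y - x by ring, abs_of_nonneg (sub_nonneg.2 h1)] at a
  calc _ ≤ (y - x) * j * max |1 - x| |1 - y| ^ (j - 1) := (le_abs_self _).trans a
    _ ≤ (y - x) * N * 1 := by gcongr
    _ = _ := by ring

theorem k_zero {N : ℕ} (h : 0 < N) : k N 0 = 1 := by
  have : (N : ℝ) ≠ 0 := by positivity
  simp [k, this]

theorem k01 {N : ℕ} (h : 0 < N) {x : ℝ} (h0 : 0 ≤ x) (h1 : x ≤ 1) : 0 ≤ k N x ∧ k N x ≤ 1 :=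
  ⟨div_nonneg (Finset.sum_nonneg fun j _ => pow_nonneg (by linarith) j) (by positivity),
    by linarith [(k_sub h le_rfl h0 h1).1, k_zero h]⟩

theorem k_le {N : ℕ} (h : 0 < N) {x : ℝ} (h0 : 0 < x) (h1 : x ≤ 1) : k N x ≤ 1 / (N * x) := by
  rw [le_div_iff₀ (by positivity), k_mul h]
  linarith [pow_nonneg (sub_nonneg.2 h1) N]

theorem k_ge {N : ℕ} (h : 0 < N) {x : ℝ} (h0 : 0 < x) (h1 : x ≤ 1) (h2 : 1 ≤ N * x) :
    1 / (2 * (N * x)) ≤ k N x := by
  have a := one_add_mul_le_pow (show -2 ≤ x by linarith) N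
  have b : (1 - x) ^ N * (1 + x) ^ N ≤ 1 := by
    rw [← mul_pow]; exact pow_le_one₀ (by nlinarith) (by nlinarith)
  rw [div_le_iff₀ (by positivity)]
  nlinarith [k_mul h x, pow_nonneg (sub_nonneg.2 h1) N]

theorem k_small {M : ℕ} (h : 0 < M) {x : ℝ} (h0 : 0 < x) (h1 : x ≤ 1) (h2 : M * x ≤ 1) :
    k (2 * M) x ≤ 1 - M * x / 2 := by
  have a := one_add_mul_le_pow (show -2 ≤ -x by linarith) M
  have b := k_mul (show 0 < 2 * M by omega) x
  have c : (0 : ℝ) < M * x := by positivity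
  rw [pow_mul', ← sub_eq_add_neg] at *
  push_cast at b
  by_contra d
  nlinarith [mul_le_mul a a (by linarith) (by linarith)]

/-- The support of the offspring law. -/
def N (i : ℕ) : ℕ := 2 ^ 8 ^ i

theorem N_pos (i : ℕ) : 0 < N i := by unfold N; positivity

theorem N_mono : StrictMono N := fun _ _ h =>
  Nat.pow_lt_pow_right (by norm_num) (Nat.pow_lt_pow_right (by norm_num) h)

theorem N_succ (i : ℕ) : N (i + 1) = N i ^ 8 := by rw [N, N, ← pow_mul, pow_succ]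

theorem N_ge (i : ℕ) : (8 : ℝ) ^ i ≤ N i := by exact_mod_cast (Nat.lt_two_pow_self).le

/-- The normalised tail transform. -/
noncomputable def h (x : ℝ) : ℝ := ∑' i, (1 / 2) ^ i * k (N i) x

theorem h_bd {x : ℝ} (h0 : 0 ≤ x) (h1 : x ≤ 1) (i : ℕ) :
    ‖(1 / 2) ^ i * k (N i) x‖ ≤ (1 / 2 : ℝ) ^ i := by
  have := k01 (N_pos i) h0 h1
  rw [Real.norm_of_nonneg (mul_nonneg (by positivity) this.1)]
  exact mul_le_of_le_one_right (by positivity) this.2

theorem h_sum {x : ℝ} (h0 : 0 ≤ x) (h1 : x ≤ 1) :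
    HasSum (fun i => (1 / 2) ^ i * k (N i) x) (h x) :=
  (Summable.of_norm_bounded summable_geometric_two (h_bd h0 h1)).hasSum

theorem h_cont : ContinuousOn h (Icc 0 1) :=
  continuousOn_tsum (fun i => by unfold k; fun_prop) summable_geometric_two
    fun i x hx => h_bd hx.1 hx.2 i

theorem h_zero : h 0 = 2 := by simp only [h, k_zero (N_pos _), mul_one, tsum_geometric_two]

theorem h_lo {x y : ℝ} (h0 : 0 ≤ x) (h1 : x ≤ y) (h2 : y ≤ 1) (i : ℕ) :
    (1 / 2) ^ i * (k (N i) x - k (N i) y) ≤ h x - h y := by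
  rw [mul_sub]
  refine le_hasSum ((h_sum h0 (h1.trans h2)).sub (h_sum (h0.trans h1) h2)) i fun j _ => ?_
  rw [← mul_sub]
  exact mul_nonneg (by positivity) (k_sub (N_pos j) h0 h1 h2).1

theorem h_lo' {x y : ℝ} (h0 : 0 ≤ x) (h1 : x ≤ y) (h2 : y ≤ 1) : (y - x) / 2 ≤ h x - h y := by
  have := h_lo h0 h1 h2 0
  simp only [N, k, Finset.sum_range_succ, pow_zero, pow_one, Finset.sum_range_zero] at this
  push_cast at this
  linarith

theorem h_hi {x y : ℝ} (h0 : 0 < x) (h1 : x ≤ y) (h2 : y ≤ 1) (i : ℕ) :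
    h x - h y ≤ 2 * (N i * (y - x) + 1 / (N (i + 1) * x)) := by
  refine hasSum_le (fun j => ?_) ((h_sum h0.le (h1.trans h2)).sub (h_sum (h0.le.trans h1) h2))
    (hasSum_geometric_two.mul_right _)
  rw [← mul_sub]
  have p := N_pos (i + 1)
  have d := sub_nonneg.2 h1
  gcongr
  rcases le_or_gt j i with e | e
  · refine le_add_of_le_of_nonneg ((k_sub (N_pos j) h0.le h1 h2).2.trans ?_) (by positivity)
    gcongr
    exact N_mono.monotone e
  · refine le_add_of_nonneg_of_le (by positivity) ((sub_le_self _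
      (k01 (N_pos j) (h0.le.trans h1) h2).1).trans ((k_le (N_pos j) h0 (h1.trans h2)).trans ?_))
    gcongr
    exact N_mono.monotone e

/-- The normalising constant. -/
noncomputable def c : ℝ := 1 / ∑' i, (1 / 2 : ℝ) ^ i / N i

theorem w_le (i : ℕ) : (1 / 2 : ℝ) ^ i / N i ≤ (1 / 2) ^ i * (1 / 2) := by
  rw [div_eq_mul_one_div]
  gcongr
  exact_mod_cast N_mono.monotone (Nat.zero_le i)

theorem w_sum : Summable fun i => (1 / 2 : ℝ) ^ i / N i :=
  Summable.of_nonneg_of_le (fun _ => by positivity) w_le (summable_geometric_two.mul_right _)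

theorem c_bd : 1 ≤ c ∧ c ≤ 2 ∧ HasSum (fun i => c * ((1 / 2 : ℝ) ^ i / N i)) 1 := by
  have a := hasSum_le w_le w_sum.hasSum (hasSum_geometric_two.mul_right _)
  have b := w_sum.le_tsum 0 fun j _ => by positivity
  have b' : (1 / 2 : ℝ) ^ 0 / N 0 = 1 / 2 := by norm_num [N]
  rw [b'] at b
  have p : 0 < ∑' i, (1 / 2 : ℝ) ^ i / N i := by linarith
  refine ⟨by rw [c, le_div_iff₀ p]; linarith, by rw [c, div_le_iff₀ p]; linarith, ?_⟩
  have := w_sum.hasSum.mul_left c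
  rwa [c, one_div_mul_cancel p.ne', ← c] at this

/-- The offspring law. -/
noncomputable def q : ℕ → ℝ := Function.extend N (fun i => c * ((1 / 2 : ℝ) ^ i / N i)) 0

theorem q_sum {f : ℕ → ℝ} {a : ℝ} (H : HasSum (fun i => c * ((1 / 2 : ℝ) ^ i / N i) * f (N i)) a) :
    HasSum (fun n => q n * f n) a := by
  rw [← N_mono.injective.hasSum_iff]
  · refine H.congr_fun fun i => ?_
    simp only [Function.comp, q, N_mono.injective.extend_apply]
  · intro n hn
    rw [q, Function.extend_apply' _ _ _ hn]; simp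

theorem t_eq (x : ℝ) (i : ℕ) : c * x * ((1 / 2) ^ i * k (N i) x) =
    c * ((1 / 2 : ℝ) ^ i / N i) * (1 - (1 - x) ^ N i) := by
  have := N_pos i
  rw [← k_mul this]; field_simp

theorem phi_eq {x : ℝ} (h0 : 0 ≤ x) (h1 : x ≤ 1) : 1 - phi q (1 - x) = c * x * h x := by
  have := (q_sum (f := fun n => (1 - x) ^ n) ((c_bd.2.2.sub ((h_sum h0 h1).mul_left
    (c * x))).congr_fun fun i => by rw [t_eq]; ring)).tsum_eq
  rw [phi, this]; ring

theorem F_mono {x y : ℝ} (h0 : 0 ≤ x) (h1 : x ≤ y) (h2 : y ≤ 1) : c * x * h x ≤ c * y * h y := by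
  refine hasSum_le (fun i => ?_) ((h_sum h0 (h1.trans h2)).mul_left _)
    ((h_sum (h0.trans h1) h2).mul_left _)
  have := c_bd.1
  rw [t_eq, t_eq]
  gcongr

theorem F01 {x : ℝ} (h0 : 0 ≤ x) (h1 : x ≤ 1) : 0 ≤ c * x * h x ∧ c * x * h x ≤ 1 := by
  refine ⟨by simpa using F_mono le_rfl h0 h1, hasSum_le (fun i => ?_)
    ((h_sum h0 h1).mul_left _) c_bd.2.2⟩
  have := c_bd.1
  rw [t_eq]
  exact mul_le_of_le_one_right (by positivity) (sub_le_self _ (pow_nonneg (by linarith) _))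

theorem g_fix {p : ℝ} (h0 : 0 < p) (h1 : p ≤ 1) : (0 ≤ g q p ∧ g q p ≤ 1) ∧
    g q p = c * (p * g q p) * h (p * g q p) ∧
    ∀ y, 0 ≤ y → y ≤ 1 → y = c * (p * y) * h (p * y) → y ≤ g q p := by
  have m : ∀ {y}, 0 ≤ y ∧ y ≤ 1 → 0 ≤ p * y ∧ p * y ≤ 1 := fun hy =>
    ⟨mul_nonneg h0.le hy.1, mul_le_one₀ h1 hy.1 hy.2⟩
  have r : ∀ n, 0 ≤ reach q p n ∧ reach q p n ≤ 1 := fun n => by
    induction n with
    | zero => simp [reach]
    | succ n ih => rw [reach, phi_eq (m ih).1 (m ih).2]; exact F01 (m ih).1 (m ih).2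
  have s : ∀ n, reach q p (n + 1) = c * (p * reach q p n) * h (p * reach q p n) := fun n => by
    rw [reach, phi_eq (m (r n)).1 (m (r n)).2]
  have a : Antitone (reach q p) := antitone_nat_of_succ_le fun n => by
    induction n with
    | zero => exact (r 1).2
    | succ n ih =>
      exact (s (n + 1)).trans_le ((F_mono (m (r _)).1 (by gcongr) (m (r _)).2).trans_eq (s n).symm)
  have b : BddBelow (range (reach q p)) := ⟨0, by rintro _ ⟨n, rfl⟩; exact (r n).1⟩
  have t : Tendsto (reach q p) atTop (𝓝 (g q p)) := tendsto_atTop_ciInf a b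
  have e : 0 ≤ g q p ∧ g q p ≤ 1 := ⟨le_ciInf fun n => (r n).1, ciInf_le b 0⟩
  refine ⟨e, ?_, fun y y0 y1 hy => le_ciInf fun n => ?_⟩
  · refine tendsto_nhds_unique ((tendsto_add_atTop_iff_nat 1).2 t) ?_
    simp only [s]
    exact ((t.const_mul p).const_mul c).mul ((h_cont _ (m e)).tendsto.comp
      (tendsto_nhdsWithin_iff.2 ⟨t.const_mul p, .of_forall fun n => m (r n)⟩))
  · induction n with
    | zero => exact y1
    | succ n ih =>
      rw [s, hy]
      exact F_mono (m ⟨y0, y1⟩).1 (by gcongr) (m (r n)).2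

theorem g_at {x : ℝ} (h0 : 0 < x) (h1 : x ≤ 1) (h2 : 1 ≤ h x) :
    1 / (c * h x) * g q (1 / (c * h x)) = x := by
  have c1 := c_bd.1
  have p0 : 0 < 1 / (c * h x) := by positivity
  have p1 : 1 / (c * h x) ≤ 1 := by rw [div_le_one (by positivity)]; nlinarith
  obtain ⟨e, f, u⟩ := g_fix p0 p1
  have y : 1 / (c * h x) * (c * x * h x) = x := by field_simp
  have a := mul_le_mul_of_nonneg_left (u _ (F01 h0.le h1).1 (F01 h0.le h1).2 (by rw [y])) p0.le
  rw [y] at a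
  have b := h_lo' h0.le a (mul_le_one₀ p1 e.1 e.2)
  generalize h (1 / (c * h x) * g q (1 / (c * h x))) = v at *
  generalize g q (1 / (c * h x)) = z at *
  have z0 : z ≠ 0 := by rintro rfl; linarith
  have : v = h x := by field_simp at f; linarith
  linarith

theorem mvt {ψ : ℝ → ℝ} {a b : ℝ} (hab : a < b) (H : ContDiffOn ℝ 2 ψ (Icc a b)) :
    ∃ L : ℝ, 0 ≤ L ∧ ∀ u v w, a ≤ u → u < v → v < w → w ≤ b →
      (ψ w - ψ v) / (w - v) - (ψ v - ψ u) / (v - u) ≤ L * (w - u) := by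
  obtain ⟨L, hL⟩ := (H.derivWithin (m := 1) (uniqueDiffOn_Icc hab) (by norm_num)).exists_lipschitzOnWith
    one_ne_zero (convex_Icc a b) isCompact_Icc
  have k : ∀ u v, a ≤ u → u < v → v ≤ b → ∃ z ∈ Ioo u v,
      derivWithin ψ (Icc a b) z = (ψ v - ψ u) / (v - u) := fun u v h1 h2 h3 =>
    exists_hasDerivAt_eq_slope ψ _ h2 (H.continuousOn.mono (Icc_subset_Icc h1 h3)) fun z hz =>
      (H.differentiableOn two_ne_zero z ⟨by linarith [hz.1], by linarith [hz.2]⟩).hasDerivWithinAt.hasDerivAt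
        (Icc_mem_nhds (by linarith [hz.1]) (by linarith [hz.2]))
  refine ⟨L, L.2, fun u v w h1 h2 h3 h4 => ?_⟩
  obtain ⟨z, hz, e⟩ := k u v h1 h2 (by linarith)
  obtain ⟨z', hz', e'⟩ := k v w (by linarith) h3 h4
  have := hL.dist_le_mul z' ⟨by linarith [hz'.1], by linarith [hz'.2]⟩ z
    ⟨by linarith [hz.1], by linarith [hz.2]⟩
  rw [e, e', Real.dist_eq, Real.dist_eq, abs_of_pos (show 0 < z' - z by linarith [hz.2, hz'.1])]
    at this
  exact (le_abs_self _).trans (this.trans (mul_le_mul_of_nonneg_left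
    (by linarith [hz.1, hz'.2]) L.2))

theorem small : (fun ε => g q (1 / (2 * c) + ε)) =o[𝓝[>] 0] fun ε => ε ^ 2 := by
  obtain ⟨c1, c2, -⟩ := c_bd
  refine isLittleO_iff.2 fun d hd => ?_
  obtain ⟨i, hi⟩ := pow_unbounded_of_one_lt (4096 / d) (one_lt_two (α := ℝ))
  have hp : (0 : ℝ) < (1 / 2) ^ i / 16 := by positivity
  filter_upwards [Ioo_mem_nhdsGT hp] with ε ⟨e0, e1⟩
  have e2 : ε ≤ 1 / 16 := by linarith [pow_le_one₀ (n := i) (show (0 : ℝ) ≤ 1 / 2 by norm_num) (by norm_num)]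
  have a1 : 1 / (2 * c) ≤ 1 / 2 := by gcongr; linarith
  have a2 : 1 / 4 ≤ 1 / (2 * c) := by gcongr; linarith
  have a3 : 1 / (2 * c) * (2 * c) = 1 := by field_simp
  obtain ⟨e, f, -⟩ := g_fix (p := 1 / (2 * c) + ε) (by linarith) (by linarith)
  rw [Real.norm_of_nonneg e.1, Real.norm_of_nonneg (by positivity)]
  rcases e.1.eq_or_lt with z | z
  · rw [← z]; positivity
  have x1 : (1 / (2 * c) + ε) * g q (1 / (2 * c) + ε) ≤ 1 := mul_le_one₀ (by linarith) e.1 e.2
  have x0 : 0 < (1 / (2 * c) + ε) * g q (1 / (2 * c) + ε) := by positivity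
  have x2 : g q (1 / (2 * c) + ε) ≤ 4 * ((1 / (2 * c) + ε) * g q (1 / (2 * c) + ε)) := by nlinarith
  have x3 : 2 - h ((1 / (2 * c) + ε) * g q (1 / (2 * c) + ε)) ≤ 8 * ε := by
    have x4 := h_lo' le_rfl x0.le x1
    rw [h_zero] at x4
    generalize h ((1 / (2 * c) + ε) * g q (1 / (2 * c) + ε)) = v at *
    generalize g q (1 / (2 * c) + ε) = y at *
    have : 1 = c * (1 / (2 * c) + ε) * v := mul_right_cancel₀ z.ne' (by linarith)
    have : 2 = v + 2 * c * ε * v := by linear_combination 2 * this + v * a3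
    have : v ≤ 2 := by linarith
    nlinarith [mul_pos e0 (show 0 < c by linarith)]
  refine x2.trans ?_
  generalize (1 / (2 * c) + ε) * g q (1 / (2 * c) + ε) = x at *
  have big : ∀ j, 2 ≤ N j * x → (1 / 2) ^ j / 2 ≤ 8 * ε := fun j hj => by
    have a := h_lo le_rfl x0.le x1 j
    have b := (k_le (N_pos j) x0 x1).trans (one_div_le_one_div_of_le two_pos hj)
    rw [h_zero, k_zero (N_pos j)] at a
    nlinarith [pow_pos (show (0 : ℝ) < 1 / 2 by norm_num) j]
  have ex : ∃ j, 2 ≤ N (i + j) * x := by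
    obtain ⟨j, hj⟩ := exists_nat_ge (2 / x)
    rw [div_le_iff₀ x0] at hj
    refine ⟨j, hj.trans ?_⟩
    gcongr
    exact (Nat.le_add_left j i).trans (N_mono.id_le _)
  have s := Nat.find_spec ex
  have s' := fun m => Nat.find_min ex (m := m)
  generalize Nat.find ex = j at *
  rcases j with _ | j
  · linarith [big i s]
  have b1 := big _ s
  have b2 := not_le.1 (s' j j.lt_succ_self)
  have b3 := h_lo le_rfl x0.le x1 (i + j)
  have b4 := N_ge (i + j)
  obtain ⟨M, hM⟩ : 2 ∣ N (i + j) := dvd_pow_self 2 (by positivity)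
  have M0 : 0 < M := by have := N_pos (i + j); omega
  rw [h_zero, k_zero (N_pos _)] at b3
  rw [hM] at b2 b3 b4
  push_cast at b2 b4
  have b5 := k_small M0 x0 x1 (by linarith)
  have b6 : (2 : ℝ) ^ i ≤ 2 ^ (i + j) := pow_le_pow_right₀ one_le_two (by omega)
  have b7 : (1 / 2 : ℝ) ^ (i + j) * (1 / 2) ^ (i + j) * 8 ^ (i + j) = 2 ^ (i + j) := by
    rw [← mul_pow, ← mul_pow]; norm_num
  rw [← add_assoc, pow_succ] at b1
  have u0 := pow_pos (show (0 : ℝ) < 1 / 2 by norm_num) (i + j)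
  generalize (1 / 2 : ℝ) ^ (i + j) = u at *
  have b8 : u * (M * x / 2) ≤ 8 * ε := by nlinarith
  have b9 := mul_le_mul b8 b1 (by positivity) (by positivity)
  rw [div_lt_iff₀ hd] at hi
  have b10 : 2 ^ i ≤ u * u * (2 * M) := by nlinarith [mul_pos u0 u0]
  have b11 : 2 ^ i * x ≤ 1024 * ε ^ 2 := by nlinarith
  nlinarith

theorem fin {n L e t a b d : ℝ} (n2 : 120 < n) (n3 : 50 * L < n) (L0 : 0 ≤ L) (n1 : 60 ≤ e * n)
    (t0 : 0 < t) (t5 : n ^ 3 * (n ^ 2 * t) = 1) (ha : e * (n ^ 2 * t) / 4 ≤ a) (b0 : 0 < b)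
    (hb : b ≤ 2 * (n * ((4 + n) * t - 4 * t) + n ^ 2 * t / 4))
    (hd : d ≤ 2 * (n * ((4 + n) * t - t) + n ^ 2 * t))
    (key : (t - 4 * t) / a - (4 * t - (4 + n) * t) / b ≤ L * d) : False := by
  have n0 : 0 < n := by linarith
  have p : 0 < n * t := by positivity
  have a1 : 15 * (n * t) ≤ a := by nlinarith
  have a2 : -(1 / (5 * n)) ≤ (t - 4 * t) / a := by
    rw [le_div_iff₀ (by linarith), neg_mul, one_div_mul_eq_div, neg_le, le_div_iff₀ (by positivity)]
    linarith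
  have a3 : (4 * t - (4 + n) * t) / b ≤ -(2 / (5 * n)) := by
    rw [div_le_iff₀ b0, neg_mul, div_mul_eq_mul_div, le_neg, div_le_iff₀ (by positivity)]
    nlinarith
  have a4 : d ≤ 10 * (n ^ 2 * t) := by nlinarith
  have a5 : L * d ≤ L * (10 * (n ^ 2 * t)) := mul_le_mul_of_nonneg_left a4 L0
  have a6 : 1 / (5 * n) ≤ L * (10 * (n ^ 2 * t)) := by
    have : 2 / (5 * n) = 2 * (1 / (5 * n)) := by ring
    linarith
  rw [div_le_iff₀ (by positivity)] at a6
  have u : 0 < n ^ 2 * t := by positivity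
  generalize n ^ 2 * t = v at *
  nlinarith [mul_pos u n0, mul_lt_mul_of_pos_right n3 (mul_pos u n0),
    mul_le_mul_of_nonneg_right n2.le (mul_pos (mul_pos u n0) n0).le]

theorem rough (δ : ℝ) (hδ : 0 < δ) :
    ¬ ContDiffOn ℝ 2 (g q) (Ico (1 / (2 * c)) (1 / (2 * c) + δ)) := fun H => by
  obtain ⟨c1, c2, -⟩ := c_bd
  obtain ⟨η, η0, η1, η2⟩ : ∃ η, 0 < η ∧ η ≤ 1 ∧ η ≤ δ :=
    ⟨min 1 δ, by positivity, min_le_left _ _, min_le_right _ _⟩
  have r : ContDiffOn ℝ 2 (fun u => 1 / (c * u)) (Icc (2 - η) 2) :=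
    contDiffOn_const.div (by fun_prop) fun u hu => by
      have : 0 < u := by linarith [hu.1]
      positivity
  obtain ⟨L, L0, hL⟩ := mvt (by linarith) (r.mul (H.comp r fun u hu => by
    have : 1 ≤ u := by linarith [hu.1]
    refine ⟨by rw [mul_comm]; gcongr; exact hu.2, ?_⟩
    rw [div_add' _ _ _ (by positivity), div_lt_div_iff₀ (by positivity) (by positivity)]
    have := hu.1
    have a : 1 ≤ c * u := by nlinarith
    nlinarith [mul_le_mul_of_nonneg_left a hδ.le]))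
  obtain ⟨ρ, ρ0, hρ⟩ := Metric.continuousWithinAt_iff.1 (h_cont 0 (by simp)) η η0
  obtain ⟨i, hi⟩ := pow_unbounded_of_one_lt (1 / ρ + 50 * L + 120) (show (1 : ℝ) < 4 by norm_num)
  have b4 := N_ge i
  have b7 : (1 / 2 : ℝ) ^ (i + 1) * 8 ^ i = 4 ^ i / 2 := by
    rw [pow_succ, mul_right_comm, ← mul_pow]; norm_num; ring
  have b6 : (4 : ℝ) ^ i ≤ 8 ^ i := by gcongr; norm_num
  have ρ1 : 0 < 1 / ρ := by positivity
  have u0 := pow_pos (show (0 : ℝ) < 1 / 2 by norm_num) (i + 1)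
  have n1 : 60 ≤ (1 / 2 : ℝ) ^ (i + 1) * N i := by
    linarith [mul_le_mul_of_nonneg_left b4 u0.le]
  have n2 : (120 : ℝ) < N i := by linarith
  have n3 : 50 * L < N i := by linarith
  have n4 : 1 / (N i : ℝ) < ρ := by rw [one_div_lt (by linarith) ρ0]; linarith
  have hN : (N (i + 1) : ℝ) = N i ^ 8 := by rw [N_succ]; push_cast; rfl
  have lo := fun x y a b c => h_lo (x := x) (y := y) a b c (i + 1)
  have hi := fun x y a b c => h_hi (x := x) (y := y) a b c i
  have kl := fun x => k_le (N_pos (i + 1)) (x := x)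
  have kg := fun x => k_ge (N_pos (i + 1)) (x := x)
  rw [hN] at hi kl kg
  generalize k (N (i + 1)) = κ at *
  generalize (N i : ℝ) = n at *
  generalize (1 / 2 : ℝ) ^ (i + 1) = e at *
  have n0 : 0 < n := by linarith
  have t0 : 0 < 1 / n ^ 5 := by positivity
  have t1 : (4 + n) * (1 / n ^ 5) ≤ 1 / n := by
    rw [mul_one_div, div_le_div_iff₀ (by positivity) n0]
    linarith [pow_le_pow_right₀ (show 1 ≤ n by linarith) (show 3 ≤ 5 by norm_num),
      mul_le_mul_of_nonneg_left n2.le n0.le, mul_le_mul_of_nonneg_left n2.le (mul_pos n0 n0).le]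
  have t2 : 1 / n ≤ 1 := by rw [div_le_one n0]; linarith
  have t3 : n ^ 8 * (1 / n ^ 5) = n ^ 3 := by field_simp
  have t4 : 1 / n ^ 3 = n ^ 2 * (1 / n ^ 5) := by field_simp
  have t5 : n ^ 3 * (n ^ 2 * (1 / n ^ 5)) = 1 := by field_simp
  have s2 : 4 * (1 / n ^ 5) ≤ (4 + n) * (1 / n ^ 5) := by gcongr; linarith
  have s3 : 4 * (1 / n ^ 5) ≤ 1 := by linarith
  have s1 : 1 / n ^ 5 ≤ 1 := by linarith
  have k1 := kg _ t0 s1 (by rw [t3]; exact one_le_pow₀ (by linarith))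
  have k2 := kl (4 * (1 / n ^ 5)) (by positivity) s3
  have d12 := lo _ (4 * (1 / n ^ 5)) t0.le (by linarith) s3
  have d23 := hi (4 * (1 / n ^ 5)) ((4 + n) * (1 / n ^ 5)) (by positivity) s2 (by linarith)
  have d23' := h_lo' (by positivity) s2 (by linarith)
  have d13 := hi _ ((4 + n) * (1 / n ^ 5)) t0 (by linarith) (by linarith)
  have d01 := h_lo' le_rfl t0.le s1
  have d3 := hρ (x := (4 + n) * (1 / n ^ 5)) ⟨by positivity, by linarith⟩ (by
    rw [Real.dist_eq, sub_zero, abs_of_pos (by positivity)]; linarith)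
  rw [h_zero] at d01 d3
  replace d3 := (abs_lt.1 d3).1
  have t6 : 1 / (n ^ 8 * (4 * (1 / n ^ 5))) = n ^ 2 * (1 / n ^ 5) / 4 := by field_simp
  have t7 : 1 / (2 * (n ^ 8 * (1 / n ^ 5))) = n ^ 2 * (1 / n ^ 5) / 2 := by field_simp
  rw [t6] at k2 d23
  rw [t7] at k1
  rw [t3, t4] at d13
  have g1 := g_at t0 s1
  have g2 := g_at (by positivity) s3
  have g3 := g_at (x := (4 + n) * (1 / n ^ 5)) (by positivity) (by linarith)
  generalize 1 / n ^ 5 = t at *
  have a12 : e * (n ^ 2 * t) / 4 ≤ h t - h (4 * t) := by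
    linarith [mul_le_mul_of_nonneg_left (sub_le_sub k1 k2) u0.le]
  have p12 : 0 < e * (n ^ 2 * t) / 4 := by positivity
  have p23 : 0 < n * t := by positivity
  have key := hL (h ((4 + n) * t)) (h (4 * t)) (h t) (by linarith) (by linarith) (by linarith)
    (by linarith)
  simp only [Function.comp] at key
  rw [g1 (by linarith), g2 (by linarith), g3 (by linarith)] at key
  exact fin n2 n3 L0 n1 t0 t5 a12 (by linarith) d23 d13 key

theorem result : ∃ (q : ℕ → ℝ) (m : ℝ), (∀ n, 0 ≤ q n) ∧ HasSum q 1 ∧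
    HasSum (fun n => q n * n) m ∧ 1 < m ∧
    ((fun ε => g q (1 / m + ε)) =o[𝓝[>] 0] fun ε => ε ^ 2) ∧
    ¬ ∃ δ > 0, ContDiffOn ℝ 2 (g q) (Ico (1 / m) (1 / m + δ)) := by
  obtain ⟨c1, -, c3⟩ := c_bd
  refine ⟨q, 2 * c, fun n => ?_, by simpa using q_sum (f := fun _ => 1) (by simpa using c3),
    q_sum (f := fun n => n) ?_, by linarith, small, fun ⟨δ, h1, h2⟩ => rough δ h1 h2⟩
  · by_cases e : ∃ i, N i = n
    · obtain ⟨i, rfl⟩ := e
      rw [q, N_mono.injective.extend_apply]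
      positivity
    · rw [q, Function.extend_apply' _ _ _ e]
      rfl
  · rw [mul_comm]
    refine (hasSum_geometric_two.mul_left c).congr_fun fun i => ?_
    have := N_pos i
    field_simp

end Pool.Agent.Results.MP_97806e_pr.Rough
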